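import Pool.Agent.H2.ISO.Proof

set_option autoImplicit false

namespace Pool.Agent.Results.MP_932050_co.LinearBound

open Pool.Agent.H2.ISO Filter Asymptotics

/-- Q1 and Q2: `N k α d = O_{α,k}(d)`, and even `N k α d ≤ C_k d + o_{α,k}(d)`; in fact
`N k α d ≤ 3 d + O_{α,k}(1)`. -/
theorem result :
    (∀ (k : ℕ) (α : ℝ), 1 ≤ k → 0 ≤ α → α ≤ 1 → ∃ C : ℝ, ∀ d : ℕ, k ≤ d →
      BddAbove (sizes k α d) ∧ (N k α d : ℝ) ≤ C * d) ∧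
    (∀ k : ℕ, 1 ≤ k → ∃ C : ℝ, ∀ α : ℝ, 0 ≤ α → α ≤ 1 → ∃ f : ℕ → ℝ,
      f =o[atTop] (fun d : ℕ => (d : ℝ)) ∧ ∀ d : ℕ, k ≤ d → (N k α d : ℝ) ≤ C * d + f d) ∧
    (∀ (k : ℕ) (α : ℝ), 1 ≤ k → 0 ≤ α → α ≤ 1 → ∃ K : ℝ, ∀ d : ℕ, k ≤ d →
      (N k α d : ℝ) ≤ 3 * d + K) := by
  have main : ∀ (k : ℕ) (α : ℝ), 1 ≤ k → 0 ≤ α → α ≤ 1 → ∃ K : ℝ, 0 ≤ K ∧ ∀ d : ℕ,
      BddAbove (sizes k α d) ∧ (N k α d : ℝ) ≤ 3 * d + K := by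
    intro k α hk h0 h1
    obtain ⟨K, hK0, hK⟩ := bound k hk α h0 h1
    refine ⟨K, hK0, fun d => ?_⟩
    have hb : BddAbove (sizes k α d) := by
      refine ⟨⌊3 * (d : ℝ) + K⌋₊, ?_⟩
      intro n hn
      exact Nat.le_floor (hK d n hn)
    have hne : (sizes k α d).Nonempty := ⟨0, ∅, rfl, by simp, by simp⟩
    exact ⟨hb, hK d _ (Nat.sSup_mem hne hb)⟩
  refine ⟨?_, ?_, ?_⟩
  · intro k α hk h0 h1
    obtain ⟨K, hK0, hK⟩ := main k α hk h0 h1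
    refine ⟨3 + K, fun d hd => ⟨(hK d).1, (hK d).2.trans ?_⟩⟩
    have hd1 : (1 : ℝ) ≤ d := by exact_mod_cast hk.trans hd
    nlinarith
  · intro k hk
    refine ⟨3, fun α h0 h1 => ?_⟩
    obtain ⟨K, hK0, hK⟩ := main k α hk h0 h1
    refine ⟨fun _ => K, ?_, fun d _ => (hK d).2⟩
    exact isLittleO_const_left.2 (Or.inr (by
      simpa [Function.comp_def] using tendsto_natCast_atTop_atTop (R := ℝ)))
  · intro k α hk h0 h1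
    obtain ⟨K, -, hK⟩ := main k α hk h0 h1
    exact ⟨K, fun d _ => (hK d).2⟩

end Pool.Agent.Results.MP_932050_co.LinearBound
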